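import Pool.Agent.H109Z.Frog.Spec

set_option autoImplicit false

/-! Proof of `D1Stmt`: the marked random digraph on the children. -/

namespace Pool.Agent.H109Z.FrogGW

open Function Finset
open scoped ENNReal

/-- independent marks -/
noncomputable def d1marks (t D : ℝ) (k : ℕ) (m : ℕ → ℝ) : PMF (ℕ → Bool) :=
  piL (fun a => bern (t * m a / D)) (fun _ => false) (List.range k)

open Classical in
/-- the vertices of `U` from which a marked vertex is reached inside `U` -/
noncomputable def d1Bad (U : Finset ℕ) (r : ℕ → ℕ → Bool) (y : ℕ → Bool) : Finset ℕ :=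
  U.filter fun c => ∃ b, Relation.ReflTransGen (fun a b => b ∈ U ∧ r a b = true) c b ∧ y b = true

lemma d1_mem_Bad {U : Finset ℕ} {r : ℕ → ℕ → Bool} {y : ℕ → Bool} {c : ℕ} :
    c ∈ d1Bad U r y ↔ c ∈ U ∧
      ∃ b, Relation.ReflTransGen (fun a b => b ∈ U ∧ r a b = true) c b ∧ y b = true := by
  simp only [d1Bad, mem_filter]

lemma d1_Bad_subset (U : Finset ℕ) (r : ℕ → ℕ → Bool) (y : ℕ → Bool) : d1Bad U r y ⊆ U :=
  fun _ h => (d1_mem_Bad.1 h).1

lemma d1_Bad_le {W : Finset ℕ} {r r' : ℕ → ℕ → Bool} {y y' : ℕ → Bool}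
    (hr : ∀ a ∈ W, r a = r' a) (hy : ∀ a ∈ W, y a = y' a) : d1Bad W r y ⊆ d1Bad W r' y' := by
  intro c hc
  obtain ⟨hcW, b, hp, hb⟩ := d1_mem_Bad.1 hc
  clear hc
  induction hp using Relation.ReflTransGen.head_induction_on with
  | refl => exact d1_mem_Bad.2 ⟨hcW, b, .refl, by rw [← hy b hcW]; exact hb⟩
  | @head a a' h1 _ ih =>
    obtain ⟨_, b', hp', hb'⟩ := d1_mem_Bad.1 (ih h1.1)
    exact d1_mem_Bad.2 ⟨hcW, b', .head ⟨h1.1, by rw [← hr a hcW]; exact h1.2⟩ hp', hb'⟩

lemma d1_Bad_congr {W : Finset ℕ} {r r' : ℕ → ℕ → Bool} {y y' : ℕ → Bool}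
    (hr : ∀ a ∈ W, r a = r' a) (hy : ∀ a ∈ W, y a = y' a) : d1Bad W r y = d1Bad W r' y' :=
  Subset.antisymm (d1_Bad_le hr hy)
    (d1_Bad_le (fun a ha => (hr a ha).symm) fun a ha => (hy a ha).symm)

lemma d1_Bad_row {W : Finset ℕ} {c : ℕ} (hc : c ∉ W) (r : ℕ → ℕ → Bool) (y a : ℕ → Bool) :
    d1Bad W (update r c a) y = d1Bad W r y :=
  d1_Bad_congr (fun b hb => update_of_ne (by rintro rfl; exact hc hb) _ _) fun _ _ => rfl

lemma d1_Bad_mark {W : Finset ℕ} {c : ℕ} (hc : c ∉ W) (r : ℕ → ℕ → Bool) (y : ℕ → Bool)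
    (a : Bool) : d1Bad W r (update y c a) = d1Bad W r y :=
  d1_Bad_congr (fun _ _ => rfl) fun b hb => update_of_ne (by rintro rfl; exact hc hb) _ _

lemma d1_Bad_mono {W U : Finset ℕ} (h : W ⊆ U) (r : ℕ → ℕ → Bool) (y : ℕ → Bool) :
    d1Bad W r y ⊆ d1Bad U r y := by
  intro c hc
  obtain ⟨hcW, b, hp, hb⟩ := d1_mem_Bad.1 hc
  exact d1_mem_Bad.2 ⟨h hcW, b, Relation.ReflTransGen.mono (fun _ _ hab => ⟨h hab.1, hab.2⟩) _ _ hp, hb⟩

lemma d1_Bad_erase {U : Finset ℕ} {c : ℕ} {r : ℕ → ℕ → Bool} {y : ℕ → Bool}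
    (h1 : y c = false) (h2 : ∀ b ∈ d1Bad (U.erase c) r y, r c b = false) :
    d1Bad U r y = d1Bad (U.erase c) r y := by
  refine Subset.antisymm ?_ (d1_Bad_mono (erase_subset _ _) r y)
  intro a ha
  obtain ⟨haU, b, hp, hb⟩ := d1_mem_Bad.1 ha
  clear ha
  induction hp using Relation.ReflTransGen.head_induction_on with
  | refl =>
    have : b ≠ c := by
      rintro rfl
      rw [h1] at hb
      exact Bool.false_ne_true hb
    exact d1_mem_Bad.2 ⟨mem_erase.2 ⟨this, haU⟩, b, .refl, hb⟩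
  | @head a a' h3 _ ih =>
    have ha' := ih h3.1
    have : a ≠ c := by
      rintro rfl
      have := h2 a' ha'
      rw [h3.2] at this
      exact Bool.false_ne_true this.symm
    obtain ⟨h4, b', hp', hb'⟩ := d1_mem_Bad.1 ha'
    exact d1_mem_Bad.2 ⟨mem_erase.2 ⟨this, haU⟩, b', .head ⟨h4, h3.2⟩ hp', hb'⟩

lemma d1_not_mem_iff {U : Finset ℕ} {c : ℕ} (hc : c ∈ U) {r : ℕ → ℕ → Bool} {y : ℕ → Bool} :
    c ∉ d1Bad U r y ↔ y c = false ∧ ∀ b ∈ d1Bad (U.erase c) r y, r c b = false := by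
  constructor
  · intro h
    constructor
    · by_contra h1
      exact h (d1_mem_Bad.2 ⟨hc, c, .refl, by simpa using h1⟩)
    · intro b hb
      by_contra h1
      obtain ⟨h4, b', hp', hb'⟩ := d1_mem_Bad.1 (d1_Bad_mono (erase_subset c U) r y hb)
      exact h (d1_mem_Bad.2 ⟨hc, b', .head ⟨h4, by simpa using h1⟩ hp', hb'⟩)
  · rintro ⟨h1, h2⟩ h
    rw [d1_Bad_erase h1 h2] at h
    exact notMem_erase c U (d1_Bad_subset _ _ _ h)

/-- expectation over the digraph and the marks -/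
noncomputable def d1E (g : ℕ → ℝ) (k : ℕ) (t : ℝ) (m : ℕ → ℝ)
    (F : (ℕ → ℕ → Bool) → (ℕ → Bool) → ℝ≥0∞) : ℝ≥0∞ :=
  EL (rows g k m) fun r => EL (d1marks t (1 + Cs g k) k m) fun y => F r y

lemma d1E_update (g : ℕ → ℝ) (k : ℕ) (t : ℝ) (m : ℕ → ℝ) {W : Finset ℕ} {c : ℕ} (hc : c ∉ W)
    (a : ℝ) (F : Finset ℕ → ℝ≥0∞) :
    d1E g k t (update m c a) (fun r y => F (d1Bad W r y)) =
      d1E g k t m fun r y => F (d1Bad W r y) := by
  unfold d1E
  have e : ∀ r, EL (d1marks t (1 + Cs g k) k (update m c a)) (fun y => F (d1Bad W r y)) =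
      EL (d1marks t (1 + Cs g k) k m) fun y => F (d1Bad W r y) := by
    intro r
    refine EL_piL_congr (c := c) _ (fun i hi => by rw [update_of_ne hi]) _ _ fun x b => ?_
    rw [d1_Bad_mark hc]
  simp only [e]
  refine EL_piL_congr (c := c) _ (fun i hi => by rw [update_of_ne hi]) _ _ fun x b => ?_
  simp only [d1_Bad_row hc]

lemma d1_EL_not {x : ℝ} (hx : 0 ≤ x) :
    EL (bern x) (fun b => if b = false then 1 else 0) = ee x := by
  rw [EL_bern hx]
  simp

/-- the key identity -/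
lemma d1_key {g : ℕ → ℝ} {k : ℕ} (hg : ∀ i < k, 0 ≤ g i) {t : ℝ} (ht : 0 ≤ t) {m : ℕ → ℝ}
    {U : Finset ℕ} (hU : U ⊆ range k) {c : ℕ} (hc : c ∈ U) (hm : 0 ≤ m c)
    (G : Finset ℕ → ℝ≥0∞) :
    d1E g k t m (fun r y => G (d1Bad (U.erase c) r y) *
        ee ((t + ∑ b ∈ d1Bad (U.erase c) r y, g b) / (1 + Cs g k) * m c)) =
      d1E g k t m fun r y => G (d1Bad U r y) * if c ∈ d1Bad U r y then 0 else 1 := by
  have hD : 0 < 1 + Cs g k := by have := Cs_nonneg hg; linarith
  have hck : c ∈ List.range k := List.mem_range.2 (mem_range.1 (hU hc))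
  have hcW : c ∉ U.erase c := notMem_erase c U
  have e1 : ∀ r y, (G (d1Bad U r y) * if c ∈ d1Bad U r y then 0 else 1) =
      (G (d1Bad (U.erase c) r y) *
        ∏ b ∈ d1Bad (U.erase c) r y, (if r c b = false then 1 else 0 : ℝ≥0∞)) *
        if y c = false then 1 else 0 := by
    intro r y
    by_cases h : c ∈ d1Bad U r y
    · rw [if_pos h, mul_zero]
      have h' := mt (d1_not_mem_iff hc).2 (not_not.2 h)
      by_cases h1 : y c = false
      · have h2 : ∃ b ∈ d1Bad (U.erase c) r y, ¬ r c b = false := by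
          by_contra h3
          push Not at h3
          exact h' ⟨h1, h3⟩
        obtain ⟨b, hb, h2⟩ := h2
        rw [Finset.prod_eq_zero hb (if_neg h2), mul_zero, zero_mul]
      · rw [if_neg h1, mul_zero]
    · obtain ⟨h1, h2⟩ := (d1_not_mem_iff hc).1 h
      rw [if_neg h, if_pos h1, ← d1_Bad_erase h1 h2]
      rw [← d1_Bad_erase h1 h2] at h2
      rw [Finset.prod_eq_one fun b hb => if_pos (h2 b hb), mul_one, mul_one]
  unfold d1E
  simp only [e1]
  have e2 : ∀ r : ℕ → ℕ → Bool, EL (d1marks t (1 + Cs g k) k m) (fun y =>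
      (G (d1Bad (U.erase c) r y) *
        ∏ b ∈ d1Bad (U.erase c) r y, (if r c b = false then 1 else 0 : ℝ≥0∞)) *
        if y c = false then 1 else 0) =
      EL (d1marks t (1 + Cs g k) k m) (fun y => (G (d1Bad (U.erase c) r y) *
        ∏ b ∈ d1Bad (U.erase c) r y, (if r c b = false then 1 else 0 : ℝ≥0∞)) *
          ee (t * m c / (1 + Cs g k))) := by
    intro r
    rw [EL_mul_const, ← d1_EL_not (by positivity)]
    exact EL_indep (fun a => bern (t * m a / (1 + Cs g k))) _ hck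
      (fun x a => by simp only [d1_Bad_mark hcW]) fun b => if b = false then 1 else 0
  simp only [e2]
  rw [EL_comm, EL_comm (rows g k m)]
  congr 1
  funext y
  symm
  unfold rows
  rw [EL_resample _ _ hck]
  congr 1
  funext r
  simp only [d1_Bad_row hcW, update_self, EL_mul_const, EL_const_mul]
  have hB : d1Bad (U.erase c) r y ⊆ range k :=
    (d1_Bad_subset _ _ _).trans ((erase_subset _ _).trans hU)
  unfold row
  rw [EL_prod' _ _ _ _ (fun i hi => List.mem_range.2 (mem_range.1 (hB hi)))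
    (fun _ b => if b = false then 1 else 0)]
  rw [Finset.prod_congr rfl fun i hi => d1_EL_not
    (div_nonneg (mul_nonneg hm (hg i (mem_range.1 (hB hi)))) hD.le), ← ee_sum, mul_assoc,
    ← ee_add]
  congr 2
  rw [← Finset.sum_div, ← Finset.mul_sum]
  ring

/-- the law of the marked digraph -/
noncomputable def d1TT (g : ℕ → ℝ) (k : ℕ) (Pm : ℕ → PMF ℝ) (t : ℝ) : PMF XX :=
  (piL Pm (fun _ => 0) (List.range k)).bind fun m => (rows g k m).bind fun r =>
    (d1marks t (1 + Cs g k) k m).map fun y => (m, r, y)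

lemma d1_EL_TT (g : ℕ → ℝ) (k : ℕ) (Pm : ℕ → PMF ℝ) (t : ℝ) (F : XX → ℝ≥0∞) :
    EL (d1TT g k Pm t) F = EL (piL Pm (fun _ => 0) (List.range k)) fun m =>
      d1E g k t m fun r y => F (m, r, y) := by
  simp only [d1TT, d1E, EL_bind, EL_map]

lemma d1_Lap (g : ℕ → ℝ) (k : ℕ) (Pm : ℕ → PMF ℝ) (t : ℝ) {W : Finset ℕ} {c : ℕ} (hck : c < k)
    (hc : c ∉ W) (H : Finset ℕ → ℝ≥0∞) (τ : Finset ℕ → ℝ) :
    EL (piL Pm (fun _ => 0) (List.range k)) (fun m =>
      d1E g k t m fun r y => H (d1Bad W r y) * Lap (Pm c) (τ (d1Bad W r y))) =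
    EL (piL Pm (fun _ => 0) (List.range k)) fun m =>
      d1E g k t m fun r y => H (d1Bad W r y) * ee (τ (d1Bad W r y) * m c) := by
  symm
  rw [EL_resample _ _ (List.mem_range.2 hck)]
  congr 1
  funext m
  simp only [update_self]
  have e : ∀ a : ℝ, d1E g k t (update m c a)
      (fun r y => H (d1Bad W r y) * ee (τ (d1Bad W r y) * a)) =
      d1E g k t m fun r y => H (d1Bad W r y) * ee (τ (d1Bad W r y) * a) :=
    fun a => d1E_update g k t m hc a fun B => H B * ee (τ B * a)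
  simp only [e]
  unfold d1E Lap
  rw [EL_comm]
  congr 1
  funext r
  rw [EL_comm]
  simp only [EL_const_mul]

lemma d1_not_mem_range {k c : ℕ} (hc : c < k) (r : ℕ → ℕ → Bool) (y : ℕ → Bool) :
    (if c ∈ d1Bad (range k) r y then 0 else 1 : ℝ≥0∞) =
      ∏ a ∈ Rch k r c, if y a = false then 1 else 0 := by
  have hrel : (fun a b => b ∈ range k ∧ r a b = true) = fun a b => b < k ∧ r a b = true := by
    simp only [mem_range]
  by_cases h : c ∈ d1Bad (range k) r y
  · rw [if_pos h]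
    obtain ⟨_, b, hp, hb⟩ := d1_mem_Bad.1 h
    rw [hrel] at hp
    have hbk : b < k := by
      cases hp with
      | refl => exact hc
      | tail _ h2 => exact h2.1
    have : b ∈ Rch k r c := by
      simp only [Rch, mem_filter, mem_range]
      exact ⟨hbk, hp⟩
    rw [Finset.prod_eq_zero this (if_neg (by simp [hb]))]
  · rw [if_neg h]
    symm
    refine Finset.prod_eq_one fun b hb => if_pos ?_
    by_contra h1
    simp only [Rch, mem_filter] at hb
    exact h (d1_mem_Bad.2 ⟨mem_range.2 hc, b, by rw [hrel]; exact hb.2, by simpa using h1⟩)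

theorem D1_thm : D1Stmt := by
  intro g k Pm t lam h hg hP ht ht1 hlam
  have hC := Cs_nonneg hg
  have hD : 0 < 1 + Cs g k := by linarith
  have hsupp : ∀ m ∈ (piL Pm (fun _ => (0 : ℝ)) (List.range k)).support, ∀ i < k, 0 ≤ m i :=
    fun m hm i hi => hP i hi _ ((supp_piL hm).1 i (List.mem_range.2 hi))
  have hσ : ∀ B, B ⊆ range k → 0 ≤ 1 - (t + ∑ b ∈ B, g b) / (1 + Cs g k) ∧
      1 - (t + ∑ b ∈ B, g b) / (1 + Cs g k) ≤ 1 := by
    intro B hB
    have h0 : 0 ≤ ∑ b ∈ B, g b := Finset.sum_nonneg fun i hi => hg i (mem_range.1 (hB hi))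
    have h1 : ∑ b ∈ B, g b ≤ Cs g k :=
      Finset.sum_le_sum_of_subset_of_nonneg hB fun i hi _ => hg i (mem_range.1 hi)
    constructor
    · rw [sub_nonneg, div_le_one hD]
      linarith
    · have : 0 ≤ (t + ∑ b ∈ B, g b) / (1 + Cs g k) := by positivity
      linarith
  refine ⟨d1TT g k Pm t,
    fun U x => 1 - (t + ∑ b ∈ d1Bad U x.2.1 x.2.2, g b) / (1 + Cs g k), ?_, ?_, ?_⟩
  · intro U hU x
    exact hσ _ ((d1_Bad_subset _ _ _).trans hU)
  · intro U hU n
    have e : ∀ c ∈ U, EL (d1TT g k Pm t) (fun x =>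
        ENNReal.ofReal (1 - (t + ∑ b ∈ d1Bad (U.erase c) x.2.1 x.2.2, g b) / (1 + Cs g k)) ^ n *
          Lap (Pm c) (1 - (1 - (t + ∑ b ∈ d1Bad (U.erase c) x.2.1 x.2.2, g b) / (1 + Cs g k)))) =
        EL (d1TT g k Pm t) fun x =>
          ENNReal.ofReal (1 - (t + ∑ b ∈ d1Bad U x.2.1 x.2.2, g b) / (1 + Cs g k)) ^ n *
            if c ∈ d1Bad U x.2.1 x.2.2 then 0 else 1 := by
      intro c hc
      simp only [d1_EL_TT, sub_sub_cancel]
      rw [d1_Lap g k Pm t (mem_range.1 (hU hc)) (notMem_erase c U)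
        (fun B => ENNReal.ofReal (1 - (t + ∑ b ∈ B, g b) / (1 + Cs g k)) ^ n)
        (fun B => (t + ∑ b ∈ B, g b) / (1 + Cs g k))]
      refine EL_congr_supp _ fun m hm => ?_
      exact d1_key hg ht hU hc (hsupp m hm c (mem_range.1 (hU hc)))
        fun B => ENNReal.ofReal (1 - (t + ∑ b ∈ B, g b) / (1 + Cs g k)) ^ n
    rw [Finset.sum_congr (s₁ := U) rfl fun c hc =>
      congrArg (fun z => ENNReal.ofReal (g c / (1 + Cs g k)) * z) (e c hc)]
    simp only [← EL_const_mul]
    rw [← EL_sum, ← EL_add]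
    refine EL_mono _ fun x => le_of_eq ?_
    have hBU := d1_Bad_subset U x.2.1 x.2.2
    generalize d1Bad U x.2.1 x.2.2 = B at hBU ⊢
    have e2 : ∀ c ∈ U, ENNReal.ofReal (g c / (1 + Cs g k)) *
        (ENNReal.ofReal (1 - (t + ∑ b ∈ B, g b) / (1 + Cs g k)) ^ n * if c ∈ B then 0 else 1) =
        ENNReal.ofReal (if c ∈ B then 0 else g c / (1 + Cs g k)) *
          ENNReal.ofReal (1 - (t + ∑ b ∈ B, g b) / (1 + Cs g k)) ^ n := by
      intro c _
      split_ifs <;> simp
    have h0 : ∀ c ∈ U, 0 ≤ if c ∈ B then 0 else g c / (1 + Cs g k) := by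
      intro c hc
      have := hg c (mem_range.1 (hU hc))
      split_ifs
      · exact le_rfl
      · positivity
    have h1 : 0 ≤ ∑ c ∈ range k \ U, g c :=
      Finset.sum_nonneg fun i hi => hg i (mem_range.1 (sdiff_subset hi))
    rw [Finset.sum_congr rfl e2, ← Finset.sum_mul, ← add_mul, pow_succ',
      ← ENNReal.ofReal_sum_of_nonneg h0,
      ← ENNReal.ofReal_add (div_nonneg (by linarith) hD.le) (Finset.sum_nonneg h0)]
    congr 2
    have s1 : ∑ c ∈ range k \ U, g c + ∑ c ∈ U, g c = Cs g k := Finset.sum_sdiff hU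
    have s2 : ∑ c ∈ U \ B, g c + ∑ c ∈ B, g c = ∑ c ∈ U, g c := Finset.sum_sdiff hBU
    have s3 : ∑ c ∈ U, (if c ∈ B then 0 else g c / (1 + Cs g k)) =
        (∑ c ∈ U \ B, g c) / (1 + Cs g k) := by
      rw [Finset.sum_div, Finset.sdiff_eq_filter, Finset.sum_filter]
      refine Finset.sum_congr rfl fun c _ => ?_
      split_ifs <;> rfl
    rw [s3]
    field_simp
    linarith
  · rcases hC.eq_or_lt with hC0 | hC0
    · have hz : ∀ c ∈ range k, g c = 0 :=
        (Finset.sum_eq_zero_iff_of_nonneg fun i hi => hg i (mem_range.1 hi)).1 hC0.symm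
      rw [Finset.sum_eq_zero fun c hc => by rw [hz c hc]; simp]
      exact zero_le
    · unfold Lap stepM
      simp only [EL_bind, EL_map, EL_lead hg hC0]
      rw [EL_sum, Finset.mul_sum]
      refine Finset.sum_le_sum fun c hc => ?_
      have hck := mem_range.1 hc
      rw [EL_const_mul, ← mul_assoc, ← ENNReal.ofReal_mul (div_nonneg hC hD.le)]
      have e0 : Cs g k / (1 + Cs g k) * (g c / Cs g k) = g c / (1 + Cs g k) := by
        field_simp
      rw [e0]
      refine mul_le_mul' le_rfl ?_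
      simp only [d1_EL_TT, sub_sub_cancel]
      have := d1_Lap g k Pm t hck (notMem_erase c (range k))
        (fun B => ee (lam * ((t + ∑ b ∈ B, g b) / (1 + Cs g k))))
        (fun B => (t + ∑ b ∈ B, g b) / (1 + Cs g k))
      unfold Lap at this
      rw [this]
      refine EL_mono_supp _ fun m hm => ?_
      have hm0 := hsupp m hm
      have hm1 : ∀ i < k, 0 ≤ update m c (lam + m c) i := by
        intro i hi
        by_cases hic : i = c
        · subst hic
          rw [update_self]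
          exact add_nonneg hlam (hm0 i hi)
        · rw [update_of_ne hic]
          exact hm0 i hi
      rw [← d1E_update g k t m (notMem_erase c (range k)) (lam + m c)
        (fun B => ee (lam * ((t + ∑ b ∈ B, g b) / (1 + Cs g k))) *
          ee ((t + ∑ b ∈ B, g b) / (1 + Cs g k) * m c))]
      have key := d1_key hg ht (m := update m c (lam + m c)) subset_rfl hc (hm1 c hck) fun _ => 1
      simp only [one_mul, update_self] at key
      have e1 : ∀ s : ℝ, ee (lam * s) * ee (s * m c) = ee (s * (lam + m c)) := by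
        intro s
        rw [← ee_add]
        congr 1
        ring
      simp only [e1]
      rw [key]
      unfold d1E
      refine EL_mono _ fun r => ?_
      simp only [d1_not_mem_range hck]
      have hR := Rch_subset k c r
      unfold d1marks
      rw [EL_prod' _ _ _ _ (fun i hi => List.mem_range.2 (mem_range.1 (hR hi)))
        (fun _ b => if b = false then 1 else 0),
        Finset.prod_congr rfl fun i hi => d1_EL_not
          (div_nonneg (mul_nonneg ht (hm1 i (mem_range.1 (hR hi)))) hD.le), ← ee_sum]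
      refine ee_anti ?_
      have s1 : ∑ a ∈ Rch k r c, update m c (lam + m c) a = lam + ∑ a ∈ Rch k r c, m a := by
        rw [Finset.sum_update_of_mem (self_mem_Rch r hck),
          ← Finset.add_sum_erase _ m (self_mem_Rch r hck), Finset.sdiff_singleton_eq_erase]
        ring
      rw [← Finset.sum_div, ← Finset.mul_sum, s1, mul_div_assoc]
      exact mul_le_mul_of_nonneg_left (min_le_right _ _) ht

end Pool.Agent.H109Z.FrogGW
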